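import Pool.Agent.Helper31.LQ.Goals

/-!
# Packet LQ-D0B: the simplex `D0`
-/

open MeasureTheory Set
open scoped ENNReal Matrix
open Pool.Agent.Helper47.AQ

noncomputable section

namespace Pool.Agent.Helper69.LQ

open Pool.Agent.Helper31.LQ

variable {n : ℕ}

theorem li_castSucc (x : Fin n → ℝ) (l : Fin n) : li x l.castSucc = x l := by
  simp [li]

theorem li_last (x : Fin n → ℝ) : li x (Fin.last n) = 0 := by
  simp [li]

theorem sum_li (x : Fin n → ℝ) : ∑ o, li x o = ∑ l, x l := by
  rw [Fin.sum_univ_castSucc]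
  simp [li_castSucc, li_last]

theorem ell_castSucc (x : Fin n → ℝ) (l : Fin n) :
    ell l.castSucc (li x) = ∑ m, x m - (n + 1) * x l := by
  rw [ell, sum_li, li_castSucc]

theorem ell_last (x : Fin n → ℝ) : ell (Fin.last n) (li x) = ∑ m, x m := by
  rw [ell, sum_li, li_last]
  ring

theorem ver_castSucc (l : Fin n) : ver l.castSucc = (Pi.single l 1 : Fin n → ℝ) := by
  funext m
  simp only [ver, pr]
  rw [Pi.single_eq_of_ne (Fin.castSucc_lt_last l).ne' (M := fun _ => ℝ)]
  by_cases h : m = l
  · subst h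
    simp
  · rw [Pi.single_eq_of_ne (by simpa using h), Pi.single_eq_of_ne h]
    simp

theorem ver_last (m : Fin n) : ver (Fin.last n) m = -1 := by
  simp only [ver, pr]
  rw [Pi.single_eq_of_ne (Fin.castSucc_lt_last m).ne (M := fun _ => ℝ), Pi.single_eq_same]
  simp

theorem sum_ver_castSucc (l : Fin n) : ∑ m, ver l.castSucc m = 1 := by
  rw [ver_castSucc]
  simp

theorem sum_ver_last : ∑ m, ver (Fin.last n) m = -(n : ℝ) := by
  simp [ver_last]

/-- The linear part. -/
def linE (n : ℕ) : (Fin n → ℝ) ≃ₗ[ℝ] (Fin n → ℝ) where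
  toFun u := fun l => u l + ∑ m, u m
  map_add' u v := by
    funext l
    simp only [Pi.add_apply, Finset.sum_add_distrib]
    ring
  map_smul' c u := by
    funext l
    simp only [Pi.smul_apply, smul_eq_mul, RingHom.id_apply, ← Finset.mul_sum]
    ring
  invFun x := fun l => x l - (∑ m, x m) / (n + 1)
  left_inv u := by
    funext l
    have h : ((n : ℝ) + 1) ≠ 0 := by positivity
    simp only [Finset.sum_add_distrib, Finset.sum_const, Finset.card_univ, Fintype.card_fin,
      nsmul_eq_mul]
    field_simp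
    ring
  right_inv x := by
    funext l
    have h : ((n : ℝ) + 1) ≠ 0 := by positivity
    simp only [Finset.sum_sub_distrib, Finset.sum_const, Finset.card_univ, Fintype.card_fin,
      nsmul_eq_mul]
    field_simp
    ring

/-- The affine equivalence. -/
def aff (n : ℕ) : (Fin n → ℝ) ≃ᵃ[ℝ] (Fin n → ℝ) :=
  (linE n).toAffineEquiv.trans (AffineEquiv.constVAdd ℝ (Fin n → ℝ) (fun _ => -1))

theorem aff_apply (u : Fin n → ℝ) (l : Fin n) : aff n u l = u l + ∑ m, u m - 1 := by
  have h : aff n u = (fun _ => (-1 : ℝ)) + linE n u := rfl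
  rw [h, Pi.add_apply]
  show (-1 : ℝ) + (u l + ∑ m, u m) = _
  ring

theorem sum_aff (u : Fin n → ℝ) : ∑ l, aff n u l = (n + 1) * ∑ m, u m - n := by
  simp only [aff_apply, Finset.sum_sub_distrib, Finset.sum_add_distrib, Finset.sum_const,
    Finset.card_univ, Fintype.card_fin, nsmul_eq_mul]
  ring

theorem ell_aff (u : Fin n → ℝ) (l : Fin n) :
    ell l.castSucc (li (aff n u)) = 1 - (n + 1) * u l := by
  rw [ell_castSucc, sum_aff, aff_apply]
  ring

theorem ell_aff_last (u : Fin n → ℝ) :
    ell (Fin.last n) (li (aff n u)) = 1 - (n + 1) * (1 - ∑ l, u l) := by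
  rw [ell_last, sum_aff]
  ring

theorem mem_D0_aff (u : Fin n → ℝ) : aff n u ∈ D0 n ↔ u ∈ Helper67.LM.T (Fin n) := by
  have hn : (0 : ℝ) < n + 1 := by positivity
  constructor
  · intro h
    refine ⟨fun l => ?_, ?_⟩
    · have h1 := h l.castSucc
      rw [ell_aff] at h1
      by_contra h2
      nlinarith
    · have h1 := h (Fin.last n)
      rw [ell_aff_last] at h1
      by_contra h2
      nlinarith
  · rintro ⟨h1, h2⟩ j
    refine Fin.lastCases ?_ (fun l => ?_) j
    · rw [ell_aff_last]
      nlinarith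
    · rw [ell_aff]
      have := h1 l
      nlinarith

theorem image_T : aff n '' Helper67.LM.T (Fin n) = D0 n := by
  ext x
  constructor
  · rintro ⟨u, hu, rfl⟩
    exact (mem_D0_aff u).2 hu
  · intro hx
    refine ⟨(aff n).symm x, ?_, (aff n).apply_symm_apply x⟩
    rw [← mem_D0_aff, (aff n).apply_symm_apply]
    exact hx

theorem CO (x : Fin n → ℝ) :
    x = ∑ j : Fin (n + 1), ((1 - ell j (li x)) / (n + 1)) • ver j := by
  funext m
  have h : ((n : ℝ) + 1) ≠ 0 := by positivity
  rw [Finset.sum_apply, Fin.sum_univ_castSucc]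
  simp only [Pi.smul_apply, smul_eq_mul, ver_castSucc, ver_last, ell_castSucc, ell_last]
  simp only [Pi.single_apply, mul_ite, mul_one, mul_zero, Finset.sum_ite_eq, Finset.mem_univ,
    if_true]
  field_simp
  ring

theorem sum_w (x : Fin n → ℝ) : ∑ j : Fin (n + 1), (1 - ell j (li x)) / (n + 1) = 1 := by
  have h : ((n : ℝ) + 1) ≠ 0 := by positivity
  rw [← Finset.sum_div, Fin.sum_univ_castSucc]
  simp only [ell_castSucc, ell_last, Finset.sum_sub_distrib, Finset.sum_const,
    Finset.card_univ, Fintype.card_fin, nsmul_eq_mul, ← Finset.mul_sum]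
  field_simp
  ring

theorem ell_ver_le (j o : Fin (n + 1)) : ell j (li (ver o)) ≤ 1 := by
  have hn : (0 : ℝ) ≤ n := Nat.cast_nonneg n
  refine Fin.lastCases ?_ (fun l => ?_) j
  · rw [ell_last]
    refine Fin.lastCases ?_ (fun l => ?_) o
    · rw [sum_ver_last]
      linarith
    · rw [sum_ver_castSucc]
  · rw [ell_castSucc]
    refine Fin.lastCases ?_ (fun k => ?_) o
    · rw [sum_ver_last, ver_last]
      linarith
    · rw [sum_ver_castSucc, ver_castSucc]
      by_cases h : l = k
      · subst h
        rw [Pi.single_eq_same]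
        linarith
      · rw [Pi.single_eq_of_ne h]
        linarith

theorem ell_comb (j : Fin (n + 1)) (a b : ℝ) (x y : Fin n → ℝ) :
    ell j (li (a • x + b • y)) = a * ell j (li x) + b * ell j (li y) := by
  refine Fin.lastCases ?_ (fun l => ?_) j
  · simp only [ell_last, Pi.add_apply, Pi.smul_apply, smul_eq_mul, Finset.sum_add_distrib,
      Finset.mul_sum]
  · simp only [ell_castSucc, Pi.add_apply, Pi.smul_apply, smul_eq_mul, Finset.sum_add_distrib,
      ← Finset.mul_sum]
    ring

theorem convex_D0 : Convex ℝ (D0 n) := by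
  intro x hx y hy a b ha hb hab j
  rw [ell_comb]
  have h1 := hx j
  have h2 := hy j
  nlinarith

theorem D0_eq : D0 n = convexHull ℝ (range (ver : Fin (n + 1) → Fin n → ℝ)) := by
  have hn : (0 : ℝ) < n + 1 := by positivity
  apply Subset.antisymm
  · intro x hx
    rw [CO x]
    refine (convex_convexHull ℝ _).sum_mem (fun j _ => ?_) (sum_w x) (fun j _ => ?_)
    · exact div_nonneg (sub_nonneg.2 (hx j)) hn.le
    · exact subset_convexHull ℝ _ (mem_range_self j)
  · refine convexHull_min ?_ convex_D0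
    rintro _ ⟨o, rfl⟩ j
    exact ell_ver_le j o

theorem continuous_ell (j : Fin (n + 1)) : Continuous fun x : Fin n → ℝ => ell j (li x) := by
  refine Fin.lastCases ?_ (fun l => ?_) j
  · simp only [ell_last]
    fun_prop
  · simp only [ell_castSucc]
    fun_prop

theorem zero_mem : (0 : Fin n → ℝ) ∈ interior (D0 n) := by
  rw [mem_interior]
  refine ⟨{x | ∀ j : Fin (n + 1), ell j (li x) < 1}, fun x hx j => (hx j).le, ?_, fun j => ?_⟩
  · have : {x : Fin n → ℝ | ∀ j : Fin (n + 1), ell j (li x) < 1} =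
        ⋂ j : Fin (n + 1), {x | ell j (li x) < 1} := by
      ext x
      simp
    rw [this]
    exact isOpen_iInter_of_finite fun j => isOpen_lt (continuous_ell j) continuous_const
  · have h := ell_comb j 0 0 (0 : Fin n → ℝ) 0
    simp only [zero_smul, add_zero, zero_mul] at h
    rw [h]
    exact one_pos

theorem gD0B : Pool.Agent.Helper31.LQ.D0B := by
  intro n _
  have hS : IsSimplex (D0 n) := by
    have h := (Helper67.LM.simplex_T (ι := Fin n)).affine (aff n)
    rwa [image_T] at h
  exact ⟨D0_eq, hS, hS.isBody, zero_mem, aff n, image_T, fun u => ⟨ell_aff u, ell_aff_last u⟩⟩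

end Pool.Agent.Helper69.LQ
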