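import Pool.Agent.Helper69.LQ.KPF

/-!
# Packet LQ-KER: vectors in the kernel
-/

open MeasureTheory Set
open scoped ENNReal Matrix
open Pool.Agent.Helper47.AQ

noncomputable section

namespace Pool.Agent.Helper69.LQ

open Pool.Agent.Helper31.LQ

variable {n d : ℕ}

theorem mat_apply (Y : Fin n → Fin d → ℝ) (π : Equiv.Perm (Fin (n + 1))) (hd : d ≤ n)
    (a c : Fin d) : mat Y π a c = yv Y (π ⟨a.val, by omega⟩) c := by
  have h : (π.symm (π ⟨a.val, by omega⟩)).val < d := by simp
  have h1 := single_eq_emb π (π ⟨a.val, by omega⟩) h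
  have h2 : (⟨(π.symm (π ⟨a.val, by omega⟩)).val, h⟩ : Fin d) = a := by
    apply Fin.ext
    simp
  rw [h2] at h1
  rw [mat, Matrix.of_apply, yv, ver, h1]

theorem inv_entry (A : Matrix (Fin d) (Fin d) ℝ) (R : ℝ) (hR : 1 ≤ R)
    (hA : ∀ i j, |A i j| ≤ R) (hdet : 1 ≤ R * |A.det|) (i j : Fin d) :
    |A⁻¹ i j| ≤ R * (d.factorial * R ^ d) := by
  have hpos : 0 < |A.det| := by
    rcases (abs_nonneg A.det).eq_or_lt with h | h
    · rw [← h] at hdet
      linarith
    · exact h
  rw [Matrix.inv_def, Matrix.smul_apply, smul_eq_mul, Ring.inverse_eq_inv', abs_mul, abs_inv]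
  have h1 : |A.det|⁻¹ ≤ R := by
    rw [inv_le_iff_one_le_mul₀ hpos]
    exact hdet
  have h2 : |A.adjugate i j| ≤ d.factorial * R ^ d := by
    rw [Matrix.adjugate_apply]
    have h3 := Matrix.det_le (A := A.updateRow j (Pi.single i 1))
      (abv := AbsoluteValue.abs) (x := R) (fun k l => by
        rw [Matrix.updateRow_apply]
        split_ifs with hk
        · show |(Pi.single i (1 : ℝ) : Fin d → ℝ) l| ≤ R
          by_cases hl : l = i
          · subst hl
            rw [Pi.single_eq_same, abs_one]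
            exact hR
          · rw [Pi.single_eq_of_ne hl, abs_zero]
            linarith
        · exact hA k l)
    rw [Fintype.card_fin, nsmul_eq_mul] at h3
    exact h3
  exact mul_le_mul h1 h2 (abs_nonneg _) (by linarith)

theorem pr_li (w : Fin n → ℝ) : pr (li w) = w := by
  funext l
  simp [pr, li_castSucc, li_last]

theorem lin_pr (Y : Fin n → Fin d → ℝ) (a : Fin (n + 1) → ℝ) (c : Fin d) :
    lin Y (pr a) c = ∑ o, a o * yv Y o c := by
  have h : pr a = ∑ o, a o • ver o := by
    funext l
    rw [Finset.sum_apply, Fin.sum_univ_castSucc]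
    simp only [Pi.smul_apply, smul_eq_mul, ver_castSucc, ver_last, Pi.single_apply, mul_ite,
      mul_one, mul_zero, Finset.sum_ite_eq, Finset.mem_univ, if_true, pr]
    ring
  rw [h, lin_sum]
  rfl

theorem gKER : Pool.Agent.Helper31.LQ.KER := by
  intro n d _ hdn R hR
  set B : ℝ := d * ((n + 1) * (R * R)) * (R * (d.factorial * R ^ d)) with hB
  have hR0 : (0 : ℝ) ≤ R := by linarith
  have hB0 : 0 ≤ B := by positivity
  refine ⟨2 * (B + R), by linarith, ?_⟩
  intro Y hG π hF w u hu hw hk
  have hdet := (hG.2.2 π hF).1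
  have hout := (hG.2.2 π hF).2
  have hdet0 : (mat Y π).det ≠ 0 := hF.1
  set a : Fin (n + 1) → ℝ := fun o => -ell o (li w) / (n + 1) with ha
  have hn : (0 : ℝ) < n + 1 := by positivity
  -- `pr a = w`
  have hpa : pr a = w := by
    funext l
    simp only [pr, ha, ell_castSucc, ell_last]
    field_simp
    ring
  have hao : ∀ o, d ≤ (π.symm o).val → |a o| ≤ R * u := by
    intro o ho
    have h1 := hout o ho
    have h2 := hk o ho
    have h3 : |ell o (li w)| ≤ R * u := by
      calc |ell o (li w)| = 1 * |ell o (li w)| := (one_mul _).symm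
        _ ≤ (R * kp Y π o) * |ell o (li w)| :=
          mul_le_mul_of_nonneg_right h1 (abs_nonneg _)
        _ = R * (kp Y π o * |ell o (li w)|) := by ring
        _ ≤ R * u := mul_le_mul_of_nonneg_left h2 hR0
    simp only [ha]
    rw [abs_div, abs_neg, abs_of_pos hn, div_le_iff₀ hn]
    have h4 : (0 : ℝ) ≤ n := Nat.cast_nonneg n
    have h5 : 0 ≤ R * u := mul_nonneg hR0 hu
    nlinarith
  set b : Fin d → ℝ := fun i => a (π ⟨i.val, by omega⟩) with hb
  set a' : Fin (n + 1) → ℝ := fun o => if (π.symm o).val < d then 0 else a o with ha'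
  have hsplit : a = fun o => emb d π b o + a' o := by
    funext o
    by_cases ho : (π.symm o).val < d
    · simp only [emb, dif_pos ho, ha', if_pos ho, hb, add_zero]
      exact congrArg a (π.apply_symm_apply o).symm
    · simp only [emb, dif_neg ho, ha', if_neg ho, zero_add]
  have hlin : ∀ c, lin Y (pr (emb d π b)) c = -∑ o, a' o * yv Y o c := by
    intro c
    have h1 : lin Y (pr a) c = 0 := by rw [hpa, hw]; rfl
    rw [lin_pr] at h1 ⊢
    have h2 : ∑ o, a o * yv Y o c = ∑ o, emb d π b o * yv Y o c + ∑ o, a' o * yv Y o c := by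
      rw [← Finset.sum_add_distrib]
      refine Finset.sum_congr rfl fun o _ => ?_
      rw [← add_mul, congrFun hsplit o]
    linarith
  have hvec : ∀ c, |(b ᵥ* mat Y π) c| ≤ (n + 1) * (R * R) * u := by
    intro c
    have h1 : (b ᵥ* mat Y π) c = lin Y (pr (emb d π b)) c := by
      rw [pr_emb, lin_sum]
      rfl
    rw [h1, hlin, abs_neg]
    calc |∑ o, a' o * yv Y o c| ≤ ∑ o, |a' o * yv Y o c| := Finset.abs_sum_le_sum_abs _ _
      _ ≤ ∑ o : Fin (n + 1), (R * u) * R := by
        refine Finset.sum_le_sum fun o _ => ?_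
        rw [abs_mul]
        refine mul_le_mul ?_ (hG.2.1 o c) (abs_nonneg _) (mul_nonneg hR0 hu)
        by_cases ho : (π.symm o).val < d
        · simp only [ha', if_pos ho, abs_zero]
          exact mul_nonneg hR0 hu
        · simp only [ha', if_neg ho]
          exact hao o (not_lt.1 ho)
      _ = (n + 1) * (R * R) * u := by
        simp only [Finset.sum_const, Finset.card_univ, Fintype.card_fin, nsmul_eq_mul]
        push_cast
        ring
  have hent : ∀ i j, |(mat Y π)⁻¹ i j| ≤ R * (d.factorial * R ^ d) :=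
    inv_entry (mat Y π) R hR (fun i j => by
      rw [mat_apply Y π hdn.le]
      exact hG.2.1 _ _) hdet
  have hbb : ∀ i, |b i| ≤ B * u := by
    intro i
    have h1 : b = (b ᵥ* mat Y π) ᵥ* (mat Y π)⁻¹ := by
      rw [Matrix.vecMul_vecMul, Matrix.mul_nonsing_inv _ (isUnit_iff_ne_zero.2 hdet0),
        Matrix.vecMul_one]
    rw [h1, Matrix.vecMul, dotProduct]
    calc |∑ c, (b ᵥ* mat Y π) c * (mat Y π)⁻¹ c i|
        ≤ ∑ c, |(b ᵥ* mat Y π) c * (mat Y π)⁻¹ c i| := Finset.abs_sum_le_sum_abs _ _
      _ ≤ ∑ c : Fin d, ((n + 1) * (R * R) * u) * (R * (d.factorial * R ^ d)) := by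
        refine Finset.sum_le_sum fun c _ => ?_
        rw [abs_mul]
        exact mul_le_mul (hvec c) (hent c i) (abs_nonneg _) (by positivity)
      _ = B * u := by
        simp only [Finset.sum_const, Finset.card_univ, Fintype.card_fin, nsmul_eq_mul, hB]
        ring
  have hall : ∀ o, |a o| ≤ (B + R) * u := by
    intro o
    have h1 : 0 ≤ B * u := mul_nonneg hB0 hu
    have h2 : 0 ≤ R * u := mul_nonneg hR0 hu
    by_cases ho : (π.symm o).val < d
    · have h3 := hbb ⟨(π.symm o).val, ho⟩
      have h4 : b ⟨(π.symm o).val, ho⟩ = a o := by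
        simp only [hb]
        refine congrArg a ?_
        exact π.apply_symm_apply o
      rw [h4] at h3
      linarith
    · have h3 := hao o (not_lt.1 ho)
      linarith
  intro l
  rw [← hpa]
  simp only [pr]
  have h1 := hall l.castSucc
  have h2 := hall (Fin.last n)
  calc |a l.castSucc - a (Fin.last n)| ≤ |a l.castSucc| + |a (Fin.last n)| := abs_sub _ _
    _ ≤ 2 * (B + R) * u := by linarith

end Pool.Agent.Helper69.LQ
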