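import Pool.Agent.Helper69.LQ.D0B

/-!
# Packet LQ-KPF: elementary facts on `nu` and `kp`
-/

open MeasureTheory Set
open scoped ENNReal Matrix
open Pool.Agent.Helper47.AQ

noncomputable section

namespace Pool.Agent.Helper69.LQ

open Pool.Agent.Helper31.LQ

variable {n d : ℕ}

theorem lin_sum {κ : Type} (s : Finset κ) (Y : Fin n → Fin d → ℝ) (w : κ → ℝ)
    (v : κ → Fin n → ℝ) (c : Fin d) :
    lin Y (∑ j ∈ s, w j • v j) c = ∑ j ∈ s, w j * lin Y (v j) c := by
  simp only [lin, Finset.sum_apply, Pi.smul_apply, smul_eq_mul, Finset.sum_mul, Finset.mul_sum]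
  rw [Finset.sum_comm]
  refine Finset.sum_congr rfl fun j _ => Finset.sum_congr rfl fun l _ => by ring

theorem pr_emb (π : Equiv.Perm (Fin (n + 1))) (t : Fin d → ℝ) :
    (pr (emb d π t) : Fin n → ℝ) = ∑ a, t a • pr (emb d π (Pi.single a 1)) := by
  have h : ∀ o : Fin (n + 1), emb d π t o = ∑ a, t a * emb d π (Pi.single a 1) o := by
    intro o
    by_cases h : (π.symm o).val < d
    · simp only [emb, dif_pos h]
      rw [Finset.sum_eq_single ⟨(π.symm o).val, h⟩]
      · rw [Pi.single_eq_same, mul_one]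
      · intro b _ hb
        rw [Pi.single_eq_of_ne (Ne.symm hb), mul_zero]
      · intro h'
        exact absurd (Finset.mem_univ _) h'
    · simp only [emb, dif_neg h, mul_zero, Finset.sum_const_zero]
  funext l
  simp only [Finset.sum_apply, Pi.smul_apply, smul_eq_mul, pr]
  rw [h, h, ← Finset.sum_sub_distrib]
  exact Finset.sum_congr rfl fun a _ => by ring

theorem mat_mulVec (Y : Fin n → Fin d → ℝ) (π : Equiv.Perm (Fin (n + 1)))
    (h : (mat Y π).det ≠ 0) : mat Y π *ᵥ nu Y π = fun _ => 1 := by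
  rw [nu, Matrix.mulVec_mulVec, Matrix.mul_nonsing_inv _ (isUnit_iff_ne_zero.2 h),
    Matrix.one_mulVec]

theorem nu_emb (Y : Fin n → Fin d → ℝ) (π : Equiv.Perm (Fin (n + 1)))
    (h : (mat Y π).det ≠ 0) (t : Fin d → ℝ) :
    ∑ c, nu Y π c * lin Y (pr (emb d π t)) c = ∑ a, t a := by
  have h1 : ∀ a, ∑ c, nu Y π c * lin Y (pr (emb d π (Pi.single a 1))) c = 1 := by
    intro a
    have h2 := congrFun (mat_mulVec Y π h) a
    rw [Matrix.mulVec, dotProduct] at h2
    refine Eq.trans (Finset.sum_congr rfl fun c _ => ?_) h2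
    rw [mat, Matrix.of_apply]
    ring
  have h3 : ∀ c, lin Y (pr (emb d π t)) c =
      ∑ a, t a * lin Y (pr (emb d π (Pi.single a 1))) c := by
    intro c
    rw [pr_emb, lin_sum]
  calc ∑ c, nu Y π c * lin Y (pr (emb d π t)) c
      = ∑ c, ∑ a, t a * (nu Y π c * lin Y (pr (emb d π (Pi.single a 1))) c) := by
        refine Finset.sum_congr rfl fun c _ => ?_
        rw [h3, Finset.mul_sum]
        exact Finset.sum_congr rfl fun a _ => by ring
    _ = ∑ a, t a := by
        rw [Finset.sum_comm]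
        refine Finset.sum_congr rfl fun a _ => ?_
        rw [← Finset.mul_sum, h1, mul_one]

theorem single_eq_emb (π : Equiv.Perm (Fin (n + 1))) (o : Fin (n + 1))
    (h : (π.symm o).val < d) :
    (Pi.single o 1 : Fin (n + 1) → ℝ) = emb d π (Pi.single ⟨(π.symm o).val, h⟩ 1) := by
  funext p
  by_cases hp : p = o
  · subst hp
    rw [Pi.single_eq_same]
    simp only [emb, dif_pos h]
    rw [Pi.single_eq_same]
  · rw [Pi.single_eq_of_ne hp]
    by_cases h' : (π.symm p).val < d
    · simp only [emb, dif_pos h']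
      rw [Pi.single_eq_of_ne]
      intro h2
      apply hp
      have h3 : (π.symm p).val = (π.symm o).val := Fin.mk.inj_iff.1 h2
      exact π.symm.injective (Fin.ext h3)
    · simp only [emb, dif_neg h']

theorem kp_zero (Y : Fin n → Fin d → ℝ) (π : Equiv.Perm (Fin (n + 1)))
    (h : (mat Y π).det ≠ 0) (o : Fin (n + 1)) (ho : (π.symm o).val < d) : kp Y π o = 0 := by
  have h1 : ∑ c, nu Y π c * yv Y o c = 1 := by
    have h2 := nu_emb Y π h (Pi.single ⟨(π.symm o).val, ho⟩ 1)
    rw [← single_eq_emb] at h2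
    rw [Finset.sum_pi_single'] at h2
    simpa [yv, ver] using h2
  rw [kp, h1]
  simp

theorem nu_yv (Y : Fin n → Fin d → ℝ) (π : Equiv.Perm (Fin (n + 1))) (o : Fin (n + 1)) :
    ∑ c, nu Y π c * yv Y o c = 1 - (n + 1) * kp Y π o := by
  have h : ((n : ℝ) + 1) ≠ 0 := by positivity
  rw [kp]
  field_simp
  ring

theorem sum_yv (Y : Fin n → Fin d → ℝ) (c : Fin d) : ∑ o, yv Y o c = 0 := by
  have h1 : ∑ o : Fin (n + 1), (ver o : Fin n → ℝ) = 0 := by
    funext m
    rw [Finset.sum_apply, Fin.sum_univ_castSucc]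
    simp only [ver_castSucc, ver_last, Pi.single_apply]
    simp
  have h2 := lin_sum Finset.univ Y (fun _ : Fin (n + 1) => (1 : ℝ)) (fun o => ver o) c
  simp only [one_smul, one_mul] at h2
  rw [h1] at h2
  have h3 : lin Y 0 c = 0 := by simp [lin]
  rw [h3] at h2
  exact h2.symm

theorem sum_kp (Y : Fin n → Fin d → ℝ) (π : Equiv.Perm (Fin (n + 1))) :
    ∑ o, kp Y π o = 1 := by
  have h : ((n : ℝ) + 1) ≠ 0 := by positivity
  have h1 : ∑ o, ∑ c, nu Y π c * yv Y o c = 0 := by
    rw [Finset.sum_comm]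
    refine Finset.sum_eq_zero fun c _ => ?_
    rw [← Finset.mul_sum, sum_yv, mul_zero]
  have h2 : ∑ o, kp Y π o = (∑ o : Fin (n + 1), (1 - ∑ c, nu Y π c * yv Y o c)) / (n + 1) := by
    rw [Finset.sum_div]
    rfl
  rw [h2, Finset.sum_sub_distrib, h1]
  simp only [Finset.sum_const, Finset.card_univ, Fintype.card_fin, nsmul_eq_mul]
  push_cast
  field_simp
  ring

theorem nu_lin (Y : Fin n → Fin d → ℝ) (π : Equiv.Perm (Fin (n + 1))) (x : Fin n → ℝ) :
    ∑ c, nu Y π c * lin Y x c = ∑ o, kp Y π o * ell o (li x) := by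
  have hn : ((n : ℝ) + 1) ≠ 0 := by positivity
  set w : Fin (n + 1) → ℝ := fun j => (1 - ell j (li x)) / (n + 1) with hw
  have hsum : ∑ j, w j = 1 := sum_w x
  have hx : x = ∑ j, w j • ver j := CO x
  have h1 : ∀ c, lin Y x c = ∑ j, w j * yv Y j c := by
    intro c
    conv_lhs => rw [hx]
    rw [lin_sum]
    rfl
  calc ∑ c, nu Y π c * lin Y x c
      = ∑ c, ∑ j, w j * (nu Y π c * yv Y j c) := by
        refine Finset.sum_congr rfl fun c _ => ?_
        rw [h1, Finset.mul_sum]
        exact Finset.sum_congr rfl fun a _ => by ring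
    _ = ∑ j, w j * (1 - (n + 1) * kp Y π j) := by
        rw [Finset.sum_comm]
        refine Finset.sum_congr rfl fun a _ => ?_
        rw [← Finset.mul_sum, nu_yv]
    _ = ∑ j, (w j - kp Y π j + kp Y π j * ell j (li x)) := by
        refine Finset.sum_congr rfl fun a _ => ?_
        rw [hw]
        field_simp
        ring
    _ = ∑ o, kp Y π o * ell o (li x) := by
        rw [Finset.sum_add_distrib, Finset.sum_sub_distrib, hsum, sum_kp]
        ring

theorem gKPF : Pool.Agent.Helper31.LQ.KPF := by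
  intro n d _ _ Y π h
  refine ⟨nu_emb Y π h, kp_zero Y π h, sum_kp Y π, nu_lin Y π, fun hF o => ?_⟩
  by_cases ho : (π.symm o).val < d
  · exact (kp_zero Y π h o ho).ge
  · exact (hF.2 o (not_lt.1 ho)).le

end Pool.Agent.Helper69.LQ
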